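import Mathlib

/-! Definitions for MP_ae1cd8_an: jump operators in detailed balance on a weighted `L^1` space. -/

open MeasureTheory Filter Topology
open scoped ENNReal NNReal

namespace Pool.Agent.Lib.MP_ae1cd8_an

/-- A strongly continuous one-parameter semigroup `(T t)` of bounded operators, `t ≥ 0`
(the values of `T` at negative times are irrelevant). -/
structure IsC0Semigroup {X : Type*} [NormedAddCommGroup X] [NormedSpace ℂ X]
    (T : ℝ → X →L[ℂ] X) : Prop where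
  zero : T 0 = ContinuousLinearMap.id ℂ X
  add : ∀ s t, 0 ≤ s → 0 ≤ t → T (s + t) = (T s).comp (T t)
  tendsto : ∀ x, Tendsto (fun t : ℝ => T t x) (𝓝[>] 0) (𝓝 x)

/-- `HasGenerator T G`: the (unbounded) operator whose graph is the relation `G` is the
infinitesimal generator of `T`, that is, `G x y` holds (`x` is in the domain and is mapped to `y`)
iff `(T t x - x) / t` tends to `y` as `t` decreases to `0`. -/
def HasGenerator {X : Type*} [NormedAddCommGroup X] [NormedSpace ℂ X]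
    (T : ℝ → X →L[ℂ] X) (G : X → X → Prop) : Prop :=
  ∀ x y, G x y ↔ Tendsto (fun t : ℝ => ((t : ℂ)⁻¹) • (T t x - x)) (𝓝[>] 0) (𝓝 y)

/-- `(T t)` is uniformly bounded: its operator norm is bounded over all `t ≥ 0`. -/
def IsUniformlyBounded {X : Type*} [NormedAddCommGroup X] [NormedSpace ℂ X]
    (T : ℝ → X →L[ℂ] X) : Prop :=
  ∃ K : ℝ, ∀ t, 0 ≤ t → ‖T t‖ ≤ K

/-- The data `(Ω, ν, p, ω)`: a `σ`-finite measure `ν`, a measurable kernel `p ≥ 0`, a measurable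
weight `ω > 0`, in detailed balance. -/
structure JumpData (Ω : Type*) [MeasurableSpace Ω] where
  /-- the reference measure -/
  ν : Measure Ω
  /-- the kernel -/
  p : Ω → Ω → ℝ
  /-- the weight -/
  ω : Ω → ℝ
  sigmaFinite : SigmaFinite ν
  p_measurable : Measurable (Function.uncurry p)
  p_nonneg : ∀ x y, 0 ≤ p x y
  ω_measurable : Measurable ω
  ω_pos : ∀ x, 0 < ω x
  balance : ∀ x y, ω x * p x y = ω y * p y x

namespace JumpData

variable {Ω : Type*} [MeasurableSpace Ω] (D : JumpData Ω)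

/-- `σ(x) = ∫ p(y, x) ν(dy)`. -/
noncomputable def σ (x : Ω) : ℝ≥0∞ := ∫⁻ y, ENNReal.ofReal (D.p y x) ∂D.ν

/-- `σ̂(y) = ∫ p(y, x) ν(dx)`. -/
noncomputable def σhat (y : Ω) : ℝ≥0∞ := ∫⁻ x, ENNReal.ofReal (D.p y x) ∂D.ν

/-- The measure `μ(dx) = ω(x) ν(dx)`. -/
noncomputable def μ : Measure Ω := D.ν.withDensity fun x => ENNReal.ofReal (D.ω x)

/-- `0 < σ < ∞` almost everywhere for `ν`. -/
def SigmaFinitePositive : Prop := ∀ᵐ x ∂D.ν, 0 < D.σ x ∧ D.σ x < ∞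

/-- Condition (A): `sup_y σ̂(y) / (1 + σ(y)) < ∞`. -/
def CondA : Prop := ∃ C : ℝ≥0, ∀ y, D.σhat y ≤ C * (1 + D.σ y)

/-- The graph of `U₁ = M₁ + P` on the complex space `L^1(μ)`: `φ` lies in `D(M₁)`, that is, `σ φ`
is in `L^1(μ)`, and `ψ(x) = - σ(x) φ(x) + ∫ p(x, y) φ(y) ν(dy)` for `μ`-almost every `x`. -/
def U₁ (φ ψ : Lp ℂ 1 D.μ) : Prop :=
  Integrable (fun x => ((D.σ x).toReal : ℂ) * φ x) D.μ ∧
    ∀ᵐ x ∂D.μ, Integrable (fun y => (D.p x y : ℂ) * φ y) D.ν ∧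
      ψ x = -((D.σ x).toReal : ℂ) * φ x + ∫ y, (D.p x y : ℂ) * φ y ∂D.ν

/-- `U₁` generates a `C₀`-semigroup on `L^1(μ)`. -/
def GeneratesC0Semigroup : Prop :=
  ∃ T : ℝ → Lp ℂ 1 D.μ →L[ℂ] Lp ℂ 1 D.μ, IsC0Semigroup T ∧ HasGenerator T D.U₁

/-- `U₁` generates a uniformly bounded `C₀`-semigroup on `L^1(μ)`. -/
def GeneratesUniformlyBoundedSemigroup : Prop :=
  ∃ T : ℝ → Lp ℂ 1 D.μ →L[ℂ] Lp ℂ 1 D.μ,
    IsC0Semigroup T ∧ HasGenerator T D.U₁ ∧ IsUniformlyBounded T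

end JumpData

end Pool.Agent.Lib.MP_ae1cd8_an
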