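import Pool.Agent.Lib.MP_ae1cd8_an.Defs

/-! An abstract lemma: a uniformly bounded semigroup has no kernel vector in the closure of the
range of its generator (quantitative form). -/

open MeasureTheory Filter Topology Set
open scoped ENNReal NNReal

namespace Pool.Agent.Lib.MP_ae1cd8_an

variable {X : Type*} [NormedAddCommGroup X] [NormedSpace ℂ X] {T : ℝ → X →L[ℂ] X}

theorem IsC0Semigroup.add_apply (hT : IsC0Semigroup T) {s t : ℝ} (hs : 0 ≤ s) (ht : 0 ≤ t) (x : X) :
    T (s + t) x = T s (T t x) := by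
  rw [hT.add s t hs ht]; rfl

theorem IsC0Semigroup.zero_apply (hT : IsC0Semigroup T) (x : X) : T 0 x = x := by
  rw [hT.zero]; rfl

theorem IsC0Semigroup.norm_sub_le (hT : IsC0Semigroup T) {K : ℝ} (hK : ∀ t, 0 ≤ t → ‖T t‖ ≤ K)
    (x : X) {s t : ℝ} (hs : 0 ≤ s) (ht : 0 ≤ t) :
    ‖T t x - T s x‖ ≤ K * ‖T |t - s| x - x‖ := by
  rcases le_total s t with h | h
  · have h1 : T t x - T s x = T s (T (t - s) x - x) := by
      rw [map_sub, ← hT.add_apply hs (sub_nonneg.2 h)]; congr 2; ring_nf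
    rw [h1, abs_of_nonneg (sub_nonneg.2 h)]
    exact ((T s).le_opNorm _).trans (mul_le_mul_of_nonneg_right (hK s hs) (norm_nonneg _))
  · have h1 : T s x - T t x = T t (T (s - t) x - x) := by
      rw [map_sub, ← hT.add_apply ht (sub_nonneg.2 h)]; congr 2; ring_nf
    rw [norm_sub_rev, h1, abs_sub_comm, abs_of_nonneg (sub_nonneg.2 h)]
    exact ((T t).le_opNorm _).trans (mul_le_mul_of_nonneg_right (hK t ht) (norm_nonneg _))

theorem IsC0Semigroup.continuousOn (hT : IsC0Semigroup T) {K : ℝ}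
    (hK : ∀ t, 0 ≤ t → ‖T t‖ ≤ K) (x : X) : ContinuousOn (fun t : ℝ => T t x) (Ici 0) := by
  have h0 : ContinuousWithinAt (fun t : ℝ => T t x) (Ici 0) 0 := by
    rw [← continuousWithinAt_Ioi_iff_Ici]
    unfold ContinuousWithinAt
    simp only [hT.zero_apply]
    exact hT.tendsto x
  intro s hs
  rw [mem_Ici] at hs
  rw [ContinuousWithinAt, tendsto_iff_norm_sub_tendsto_zero]
  have h1 : Tendsto (fun t : ℝ => K * ‖T |t - s| x - x‖) (𝓝[Ici 0] s) (𝓝 0) := by
    have h2 : Tendsto (fun t : ℝ => |t - s|) (𝓝[Ici 0] s) (𝓝[Ici 0] 0) := by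
      rw [tendsto_nhdsWithin_iff]
      refine ⟨?_, Eventually.of_forall fun t => mem_Ici.2 (abs_nonneg _)⟩
      have h3 : Tendsto (fun t : ℝ => |t - s|) (𝓝 s) (𝓝 (|s - s|)) :=
        ((continuous_id.sub continuous_const).abs).tendsto s
      rw [sub_self, abs_zero] at h3
      exact h3.mono_left nhdsWithin_le_nhds
    have h4 := h0.tendsto.comp h2
    simp only [hT.zero_apply] at h4
    have h5 := ((h4.sub_const x).norm).const_mul K
    simpa using h5
  refine squeeze_zero' (Eventually.of_forall fun t => norm_nonneg _) ?_ h1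
  filter_upwards [self_mem_nhdsWithin] with t ht
  exact hT.norm_sub_le hK x hs ht

theorem HasGenerator.hasDerivWithinAt (hT : IsC0Semigroup T) {G : X → X → Prop}
    (hG : HasGenerator T G) {x y : X} (h : G x y) {s : ℝ} (hs : 0 ≤ s) :
    HasDerivWithinAt (fun t : ℝ => T t x) (T s y) (Ici s) s := by
  rw [← hasDerivWithinAt_Ioi_iff_Ici, hasDerivWithinAt_iff_tendsto_slope' (by simp)]
  have h1 := (hG x y).1 h
  have h2 : Tendsto (fun t : ℝ => t - s) (𝓝[>] s) (𝓝[>] 0) := by
    rw [tendsto_nhdsWithin_iff]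
    constructor
    · have h3 : Tendsto (fun t : ℝ => t - s) (𝓝 s) (𝓝 (s - s)) :=
        (continuous_id.sub continuous_const).tendsto s
      rw [sub_self] at h3
      exact h3.mono_left nhdsWithin_le_nhds
    · filter_upwards [self_mem_nhdsWithin] with t ht
      exact sub_pos.2 (mem_Ioi.1 ht)
  have h4 := ((T s).continuous.tendsto y).comp (h1.comp h2)
  refine h4.congr' ?_
  filter_upwards [self_mem_nhdsWithin] with t ht
  have ht' : s < t := ht
  simp only [Function.comp, slope, vsub_eq_sub]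
  rw [map_smul, map_sub, ← hT.add_apply hs (sub_nonneg.2 ht'.le)]
  have h5 : s + (t - s) = t := by ring
  rw [h5]
  have h6 : ((t - s : ℝ) : ℂ)⁻¹ = (((t - s)⁻¹ : ℝ) : ℂ) := by push_cast; ring
  rw [h6]
  exact Complex.coe_smul _ _

/-- If a `C₀`-semigroup is bounded by `K`, `p` is in the kernel of its generator and `p - χ` is in
the range of its generator, then `‖p‖ ≤ K ‖χ‖`. -/
theorem norm_kernel_le (hT : IsC0Semigroup T) {K : ℝ} (hK : ∀ t, 0 ≤ t → ‖T t‖ ≤ K)
    {G : X → X → Prop} (hG : HasGenerator T G) {p φ χ : X} (hp : G p 0) (hφ : G φ (p - χ)) :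
    ‖p‖ ≤ K * ‖χ‖ := by
  have hfix : ∀ t, 0 ≤ t → T t p = p := by
    intro t ht
    have h1 := norm_image_sub_le_of_norm_deriv_right_le_segment (f := fun t : ℝ => T t p)
      (f' := fun s => T s 0) (C := 0) (a := 0) (b := t)
      ((hT.continuousOn hK p).mono Icc_subset_Ici_self)
      (fun s hs => HasGenerator.hasDerivWithinAt hT hG hp hs.1)
      (fun s _ => by simp) t (right_mem_Icc.2 ht)
    simp only [zero_mul, hT.zero_apply] at h1
    exact sub_eq_zero.1 (norm_le_zero_iff.1 h1)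
  have hmain : ∀ t : ℝ, 0 < t → t * ‖p‖ ≤ (K + 1) * ‖φ‖ + K * ‖χ‖ * t := by
    intro t ht
    have h1 := norm_image_sub_le_of_norm_deriv_right_le_segment
      (f := fun t : ℝ => T t φ - t • p)
      (f' := fun s => T s (p - χ) - (1 : ℝ) • p) (C := K * ‖χ‖) (a := 0) (b := t)
      (((hT.continuousOn hK φ).mono Icc_subset_Ici_self).sub
        (continuousOn_id.smul continuousOn_const))
      (fun s hs => (HasGenerator.hasDerivWithinAt hT hG hφ hs.1).sub
        ((hasDerivWithinAt_id s (Ici s)).smul_const p))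
      (fun s hs => by
        have h2 : T s (p - χ) - (1 : ℝ) • p = -(T s χ) := by
          rw [map_sub, hfix s hs.1, one_smul]; abel
        rw [h2, norm_neg]
        exact ((T s).le_opNorm _).trans (mul_le_mul_of_nonneg_right (hK s hs.1) (norm_nonneg _)))
      t (right_mem_Icc.2 ht.le)
    simp only [hT.zero_apply, zero_smul, sub_zero] at h1
    have h3 : ‖t • p‖ ≤ ‖T t φ - φ‖ + ‖T t φ - t • p - φ‖ := by
      have h4 : t • p = (T t φ - φ) - (T t φ - t • p - φ) := by abel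
      calc ‖t • p‖ = ‖(T t φ - φ) - (T t φ - t • p - φ)‖ := by rw [← h4]
        _ ≤ _ := norm_sub_le _ _
    rw [norm_smul, Real.norm_of_nonneg ht.le] at h3
    have h5 : ‖T t φ - φ‖ ≤ (K + 1) * ‖φ‖ := by
      calc ‖T t φ - φ‖ ≤ ‖T t φ‖ + ‖φ‖ := norm_sub_le _ _
        _ ≤ K * ‖φ‖ + ‖φ‖ := by
          gcongr
          exact ((T t).le_opNorm _).trans (mul_le_mul_of_nonneg_right (hK t ht.le) (norm_nonneg _))
        _ = _ := by ring
    linarith
  by_contra hcon
  push Not at hcon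
  have hd : 0 < ‖p‖ - K * ‖χ‖ := sub_pos.2 hcon
  have hK0 : 0 ≤ K := (norm_nonneg _).trans (hK 0 le_rfl)
  have hn : 0 ≤ (K + 1) * ‖φ‖ := by positivity
  have h := hmain (((K + 1) * ‖φ‖ + 1) / (‖p‖ - K * ‖χ‖)) (by positivity)
  have h6 : ((K + 1) * ‖φ‖ + 1) / (‖p‖ - K * ‖χ‖) * (‖p‖ - K * ‖χ‖) = (K + 1) * ‖φ‖ + 1 := by
    field_simp
  nlinarith

end Pool.Agent.Lib.MP_ae1cd8_an
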