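import Pool.Agent.Lib.MP_ae1cd8_an.Ergodic

/-! The counterexample: a star-shaped jump process on `ℕ` with slow leaves. -/

open MeasureTheory Filter Topology Set
open scoped ENNReal NNReal

namespace Pool.Agent.Lib.MP_ae1cd8_an

/-- Integrability on `ℕ` from summability. -/
theorem integrable_of_summable {m : Measure ℕ} {f : ℕ → ℂ} (hm : ∀ k, m {k} ≠ ∞)
    (h : Summable fun k => m.real {k} * ‖f k‖) : Integrable f m := by
  refine ⟨(measurable_of_countable f).aestronglyMeasurable, ?_⟩
  rw [hasFiniteIntegral_iff_enorm, lintegral_countable']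
  have h1 : ∀ k, ‖f k‖ₑ * m {k} = ENNReal.ofReal (m.real {k} * ‖f k‖) := by
    intro k
    rw [ENNReal.ofReal_mul measureReal_nonneg, mul_comm, ofReal_norm, measureReal_def,
      ENNReal.ofReal_toReal (hm k)]
  simp_rw [h1]
  rw [← ENNReal.ofReal_tsum_of_nonneg (fun k => by positivity) h]
  exact ENNReal.ofReal_lt_top

theorem integrable_of_summable_real {m : Measure ℕ} {f : ℕ → ℝ} (hm : ∀ k, m {k} ≠ ∞)
    (h : Summable fun k => m.real {k} * ‖f k‖) : Integrable f m := by
  refine ⟨(measurable_of_countable f).aestronglyMeasurable, ?_⟩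
  rw [hasFiniteIntegral_iff_enorm, lintegral_countable']
  have h1 : ∀ k, ‖f k‖ₑ * m {k} = ENNReal.ofReal (m.real {k} * ‖f k‖) := by
    intro k
    rw [ENNReal.ofReal_mul measureReal_nonneg, mul_comm, ofReal_norm, measureReal_def,
      ENNReal.ofReal_toReal (hm k)]
  simp_rw [h1]
  rw [← ENNReal.ofReal_tsum_of_nonneg (fun k => by positivity) h]
  exact ENNReal.ofReal_lt_top

/-- The reference measure of the example, `ν {k} = 4^{-k}`. -/
noncomputable def exν : Measure ℕ :=
  Measure.count.withDensity fun k => ENNReal.ofReal ((1 / 4 : ℝ) ^ k)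

theorem exν_singleton (k : ℕ) : exν {k} = ENNReal.ofReal ((1 / 4 : ℝ) ^ k) := by
  rw [exν, withDensity_apply _ (measurableSet_singleton k), Measure.restrict_singleton,
    Measure.count_singleton, one_smul, lintegral_dirac]

theorem exν_real (k : ℕ) : exν.real {k} = (1 / 4 : ℝ) ^ k := by
  rw [measureReal_def, exν_singleton, ENNReal.toReal_ofReal (by positivity)]

theorem exν_ne_top (k : ℕ) : exν {k} ≠ ∞ := by
  rw [exν_singleton]; exact ENNReal.ofReal_ne_top

theorem summable_quarter : Summable fun k : ℕ => (1 / 4 : ℝ) ^ k :=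
  summable_geometric_of_lt_one (by norm_num) (by norm_num)

theorem summable_half : Summable fun k : ℕ => (1 / 2 : ℝ) ^ k :=
  summable_geometric_of_lt_one (by norm_num) (by norm_num)

instance : IsFiniteMeasure exν := by
  constructor
  have h : exν univ = ∫⁻ _, 1 ∂exν := by simp
  rw [h, lintegral_countable']
  simp_rw [exν_singleton, one_mul]
  rw [← ENNReal.ofReal_tsum_of_nonneg (fun k => by positivity) summable_quarter]
  exact ENNReal.ofReal_lt_top

/-- The kernel of the example. -/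
noncomputable def exp' (x y : ℕ) : ℝ := if x = 0 then (1 / 2 : ℝ) ^ y else if y = 0 then 1 else 0

/-- The data of the example. -/
noncomputable def ex : JumpData ℕ where
  ν := exν
  p := exp'
  ω := fun k => (1 / 2 : ℝ) ^ k
  sigmaFinite := inferInstance
  p_measurable := measurable_of_countable _
  p_nonneg := by
    intro x y
    unfold exp'
    split_ifs <;> positivity
  ω_measurable := measurable_of_countable _
  ω_pos := fun k => by positivity
  balance := by
    intro x y
    unfold exp'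
    by_cases hx : x = 0 <;> by_cases hy : y = 0 <;> simp [hx, hy]

theorem ex_μ_singleton (k : ℕ) : ex.μ {k} = ENNReal.ofReal ((1 / 8 : ℝ) ^ k) := by
  have h : ex.μ = exν.withDensity fun k => ENNReal.ofReal ((1 / 2 : ℝ) ^ k) := rfl
  rw [h, withDensity_apply _ (measurableSet_singleton k), Measure.restrict_singleton,
    lintegral_smul_measure, lintegral_dirac, exν_singleton, smul_eq_mul,
    ← ENNReal.ofReal_mul (by positivity), ← mul_pow]
  norm_num

theorem ex_μ_real (k : ℕ) : ex.μ.real {k} = (1 / 8 : ℝ) ^ k := by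
  rw [measureReal_def, ex_μ_singleton, ENNReal.toReal_ofReal (by positivity)]

theorem ex_μ_ne_top (k : ℕ) : ex.μ {k} ≠ ∞ := by
  rw [ex_μ_singleton]; exact ENNReal.ofReal_ne_top

theorem ex_σ_zero : ex.σ 0 = ENNReal.ofReal (4 / 3) := by
  have h : ex.σ 0 = ∫⁻ y, ENNReal.ofReal (exp' y 0) ∂exν := rfl
  rw [h, lintegral_countable']
  simp_rw [exν_singleton]
  have h1 : ∀ y : ℕ, ENNReal.ofReal (exp' y 0) * ENNReal.ofReal ((1 / 4 : ℝ) ^ y) =
      ENNReal.ofReal ((1 / 4 : ℝ) ^ y) := by
    intro y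
    have : exp' y 0 = 1 := by unfold exp'; simp
    rw [this]; simp
  simp_rw [h1]
  rw [← ENNReal.ofReal_tsum_of_nonneg (fun k => by positivity) summable_quarter,
    tsum_geometric_of_lt_one (by norm_num) (by norm_num)]
  norm_num

theorem ex_σ_pos {k : ℕ} (hk : k ≠ 0) : ex.σ k = ENNReal.ofReal ((1 / 2 : ℝ) ^ k) := by
  have h : ex.σ k = ∫⁻ y, ENNReal.ofReal (exp' y k) ∂exν := rfl
  rw [h, lintegral_countable', tsum_eq_single 0]
  · rw [exν_singleton]; simp [exp']
  · intro y hy
    simp [exp', hy, hk]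

theorem ex_σhat_zero : ex.σhat 0 ≤ ENNReal.ofReal (4 / 3) := by
  have h : ex.σhat 0 = ∫⁻ y, ENNReal.ofReal (exp' 0 y) ∂exν := rfl
  rw [h, lintegral_countable']
  simp_rw [exν_singleton]
  have h1 : ∀ y : ℕ, ENNReal.ofReal (exp' 0 y) * ENNReal.ofReal ((1 / 4 : ℝ) ^ y) ≤
      ENNReal.ofReal ((1 / 4 : ℝ) ^ y) := by
    intro y
    have : exp' 0 y ≤ 1 := by
      have h2 : exp' 0 y = (1 / 2 : ℝ) ^ y := by unfold exp'; simp
      rw [h2]
      exact pow_le_one₀ (by norm_num) (by norm_num)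
    calc _ ≤ ENNReal.ofReal 1 * ENNReal.ofReal ((1 / 4 : ℝ) ^ y) := by gcongr
      _ = _ := by simp
  refine (ENNReal.tsum_le_tsum h1).trans ?_
  rw [← ENNReal.ofReal_tsum_of_nonneg (fun k => by positivity) summable_quarter,
    tsum_geometric_of_lt_one (by norm_num) (by norm_num)]
  norm_num

theorem ex_σhat_pos {k : ℕ} (hk : k ≠ 0) : ex.σhat k = 1 := by
  have h : ex.σhat k = ∫⁻ y, ENNReal.ofReal (exp' k y) ∂exν := rfl
  rw [h, lintegral_countable', tsum_eq_single 0]
  · rw [exν_singleton]; simp [exp']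
  · intro y hy
    simp [exp', hy, hk]

theorem ex_sigmaFinitePositive : ex.SigmaFinitePositive := by
  refine Eventually.of_forall fun k => ?_
  by_cases hk : k = 0
  · subst hk; rw [ex_σ_zero]
    exact ⟨ENNReal.ofReal_pos.2 (by norm_num), ENNReal.ofReal_lt_top⟩
  · rw [ex_σ_pos hk]
    exact ⟨ENNReal.ofReal_pos.2 (by positivity), ENNReal.ofReal_lt_top⟩

theorem ex_condA : ex.CondA := by
  refine ⟨2, fun k => ?_⟩
  have h : ex.σhat k ≤ 2 := by
    by_cases hk : k = 0
    · subst hk
      refine ex_σhat_zero.trans ?_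
      rw [ENNReal.ofReal_le_iff_le_toReal (by simp)]
      norm_num
    · rw [ex_σhat_pos hk]; norm_num
  calc ex.σhat k ≤ 2 := h
    _ = 2 * 1 := by rw [mul_one]
    _ ≤ _ := by
      push_cast
      gcongr
      exact le_self_add

theorem ex_integrable_inv : Integrable (fun k => (ex.ω k)⁻¹) ex.μ := by
  refine integrable_of_summable_real ex_μ_ne_top ?_
  refine summable_quarter.congr fun k => ?_
  rw [ex_μ_real]
  have h : ex.ω k = (1 / 2 : ℝ) ^ k := rfl
  rw [h, Real.norm_of_nonneg (by positivity), ← inv_pow, ← mul_pow]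
  norm_num

theorem ex_ae {P : ℕ → Prop} : (∀ᵐ x ∂ex.μ, P x) ↔ ∀ x, P x := by
  rw [ae_iff_of_countable]
  refine forall_congr' fun x => ?_
  have : ex.μ {x} ≠ 0 := by
    rw [ex_μ_singleton]
    exact (ENNReal.ofReal_pos.2 (by positivity)).ne'
  simp [this]

/-- The values of `σ` in the example. -/
noncomputable def exs (k : ℕ) : ℝ := if k = 0 then 4 / 3 else (1 / 2 : ℝ) ^ k

theorem ex_σ_toReal (k : ℕ) : (ex.σ k).toReal = exs k := by
  unfold exs
  split_ifs with hk
  · rw [hk, ex_σ_zero, ENNReal.toReal_ofReal (by norm_num)]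
  · rw [ex_σ_pos hk, ENNReal.toReal_ofReal (by positivity)]

theorem exs_nonneg (k : ℕ) : 0 ≤ exs k := by
  unfold exs; split_ifs <;> positivity

theorem exs_le (k : ℕ) : exs k ≤ 2 := by
  unfold exs
  split_ifs
  · norm_num
  · exact (pow_le_one₀ (by norm_num) (by norm_num)).trans (by norm_num)

theorem ex_integrable_smul (φ : Lp ℂ 1 ex.μ) :
    Integrable (fun x => ((ex.σ x).toReal : ℂ) * φ x) ex.μ := by
  refine (L1.integrable_coeFn φ).bdd_mul (c := 2)
    (measurable_of_countable _).aestronglyMeasurable (Eventually.of_forall fun k => ?_)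
  rw [ex_σ_toReal, Complex.norm_real, Real.norm_of_nonneg (exs_nonneg k)]
  exact exs_le k

theorem ex_kernel_integral (φ : Lp ℂ 1 ex.μ) (x : ℕ) :
    Integrable (fun y => (ex.p x y : ℂ) * φ y) ex.ν ∧
      ∫ y, (ex.p x y : ℂ) * φ y ∂ex.ν = if x = 0 then ∫ y, φ y ∂ex.μ else φ 0 := by
  by_cases hx : x = 0
  · subst hx
    have h1 : ex.μ = exν.withDensity fun k => ((Real.toNNReal ((1 / 2 : ℝ) ^ k) : ℝ≥0) : ℝ≥0∞) := rfl
    have hm : Measurable fun k : ℕ => Real.toNNReal ((1 / 2 : ℝ) ^ k) := measurable_of_countable _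
    have h2 : ∀ y, (ex.p 0 y : ℂ) * φ y = Real.toNNReal ((1 / 2 : ℝ) ^ y) • φ y := by
      intro y
      have h3 : ex.p 0 y = (1 / 2 : ℝ) ^ y := rfl
      rw [h3, NNReal.smul_def, Real.coe_toNNReal _ (by positivity), Complex.real_smul]
    simp_rw [h2, if_true]
    constructor
    · have h3 : ∀ g : ℕ → ℂ, Integrable g ex.μ →
          Integrable (fun y => Real.toNNReal ((1 / 2 : ℝ) ^ y) • g y) exν := by
        intro g hg
        rw [h1, integrable_withDensity_iff_integrable_smul hm] at hg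
        exact hg
      exact h3 _ (L1.integrable_coeFn φ)
    · have h3 : ∀ g : ℕ → ℂ, ∫ y, g y ∂ex.μ = ∫ y, Real.toNNReal ((1 / 2 : ℝ) ^ y) • g y ∂exν := by
        intro g
        rw [h1, integral_withDensity_eq_integral_smul hm]
      exact (h3 _).symm
  · rw [if_neg hx]
    have h0 : ∀ y, (ex.p x y : ℂ) * φ y = if y = 0 then φ 0 else 0 := by
      intro y
      have h3 : ex.p x y = if y = 0 then 1 else 0 := by
        change exp' x y = _
        unfold exp'
        rw [if_neg hx]
      rw [h3]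
      split_ifs with hy
      · rw [hy]; simp
      · simp
    have h4 : Integrable (fun y => (ex.p x y : ℂ) * φ y) ex.ν := by
      refine integrable_of_summable exν_ne_top ?_
      refine summable_of_ne_finset_zero (s := {0}) fun y hy => ?_
      rw [h0, if_neg (by simpa using hy)]
      simp
    refine ⟨h4, ?_⟩
    rw [integral_countable h4, tsum_eq_single 0]
    · rw [h0, if_pos rfl]
      have h5 : ex.ν.real {0} = 1 := by
        change exν.real {0} = 1
        rw [exν_real]; norm_num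
      rw [h5, one_smul]
    · intro y hy
      rw [h0, if_neg hy, smul_zero]

theorem ex_U₁_iff (φ ψ : Lp ℂ 1 ex.μ) : ex.U₁ φ ψ ↔
    ∀ x, ψ x = -(exs x : ℂ) * φ x + if x = 0 then ∫ y, φ y ∂ex.μ else φ 0 := by
  unfold JumpData.U₁
  rw [ex_ae, and_iff_right (ex_integrable_smul φ)]
  refine forall_congr' fun x => ?_
  rw [(ex_kernel_integral φ x).2, and_iff_right (ex_kernel_integral φ x).1, ex_σ_toReal]

/-- Integrability with respect to `μ`. -/
theorem ex_memLp {f : ℕ → ℂ} (h : Summable fun k => (1 / 8 : ℝ) ^ k * ‖f k‖) : MemLp f 1 ex.μ := by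
  rw [memLp_one_iff_integrable]
  refine integrable_of_summable ex_μ_ne_top ?_
  simpa only [ex_μ_real] using h

theorem ex_toLp_apply {f : ℕ → ℂ} (h : MemLp f 1 ex.μ) (k : ℕ) : h.toLp f k = f k := by
  have := h.coeFn_toLp
  exact ex_ae.1 this k

/-- The kernel vector `1/ω`. -/
theorem ex_memLp_ker : MemLp (fun k : ℕ => (2 : ℂ) ^ k) 1 ex.μ := by
  refine ex_memLp (summable_quarter.congr fun k => ?_)
  rw [norm_pow, Complex.norm_ofNat, ← mul_pow]; norm_num

theorem ex_memLp_chi (n : ℕ) : MemLp (fun k : ℕ => if k = n then 2 * (4 : ℂ) ^ n else 0) 1 ex.μ := by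
  refine ex_memLp (summable_of_ne_finset_zero (s := {n}) fun k hk => ?_)
  rw [if_neg (by simpa using hk)]; simp

theorem ex_memLp_phi (n : ℕ) : MemLp (fun k : ℕ => -(4 : ℂ) ^ k + (if k = 0 then 1 else 0) +
    (if k = n then 2 * (8 : ℂ) ^ n else 0)) 1 ex.μ := by
  refine MemLp.add (MemLp.add (MemLp.neg ?_) ?_) ?_
  · refine ex_memLp (summable_half.congr fun k => ?_)
    rw [norm_pow, Complex.norm_ofNat, ← mul_pow]; norm_num
  · refine ex_memLp (summable_of_ne_finset_zero (s := {0}) fun k hk => ?_)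
    rw [if_neg (by simpa using hk)]; simp
  · refine ex_memLp (summable_of_ne_finset_zero (s := {n}) fun k hk => ?_)
    rw [if_neg (by simpa using hk)]; simp

/-- The kernel vector `1/ω` as an element of `L^1(μ)`. -/
noncomputable def exKer : Lp ℂ 1 ex.μ := ex_memLp_ker.toLp _

/-- The point mass at `n` as an element of `L^1(μ)`. -/
noncomputable def exChi (n : ℕ) : Lp ℂ 1 ex.μ := (ex_memLp_chi n).toLp _

/-- The preimage as an element of `L^1(μ)`. -/
noncomputable def exPhi (n : ℕ) : Lp ℂ 1 ex.μ := (ex_memLp_phi n).toLp _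

theorem exKer_apply (k : ℕ) : exKer k = (2 : ℂ) ^ k := ex_toLp_apply _ k

theorem exChi_apply (n k : ℕ) : exChi n k = if k = n then 2 * (4 : ℂ) ^ n else 0 :=
  ex_toLp_apply _ k

theorem exPhi_apply (n k : ℕ) : exPhi n k = -(4 : ℂ) ^ k + (if k = 0 then 1 else 0) +
    (if k = n then 2 * (8 : ℂ) ^ n else 0) := ex_toLp_apply _ k

end Pool.Agent.Lib.MP_ae1cd8_an
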