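import Pool.Agent.Lib.MP_ae1cd8_an.Main

/-! In the example `U₁` is a bounded everywhere defined operator, hence generates a semigroup. -/

open MeasureTheory Filter Topology Set
open scoped ENNReal NNReal

namespace Pool.Agent.Lib.MP_ae1cd8_an

instance : IsFiniteMeasure ex.μ := by
  constructor
  have h : ex.μ univ = ∫⁻ _, 1 ∂ex.μ := by simp
  rw [h, lintegral_countable']
  simp_rw [ex_μ_singleton, one_mul]
  rw [← ENNReal.ofReal_tsum_of_nonneg (fun k => by positivity)
    (summable_geometric_of_lt_one (by norm_num) (by norm_num))]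
  exact ENNReal.ofReal_lt_top

theorem ex_norm_zero_le (φ : Lp ℂ 1 ex.μ) : ‖φ 0‖ ≤ ‖φ‖ := by
  rw [L1.norm_eq_integral_norm]
  have h1 : ∫ x in {0}, ‖φ x‖ ∂ex.μ ≤ ∫ x, ‖φ x‖ ∂ex.μ :=
    setIntegral_le_integral (L1.integrable_coeFn φ).norm (Eventually.of_forall fun x => norm_nonneg _)
  rw [integral_singleton, ex_μ_real] at h1
  simpa using h1

theorem ex_norm_integral_le (φ : Lp ℂ 1 ex.μ) : ‖∫ x, φ x ∂ex.μ‖ ≤ ‖φ‖ := by
  rw [L1.norm_eq_integral_norm]
  exact norm_integral_le_integral_norm _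

/-- The pointwise formula for `U₁`. -/
noncomputable def exFun (φ : Lp ℂ 1 ex.μ) (x : ℕ) : ℂ :=
  -(exs x : ℂ) * φ x + if x = 0 then ∫ y, φ y ∂ex.μ else φ 0

theorem norm_exFun_le (φ : Lp ℂ 1 ex.μ) (x : ℕ) : ‖exFun φ x‖ ≤ 2 * ‖φ x‖ + ‖φ‖ := by
  unfold exFun
  refine (norm_add_le _ _).trans (add_le_add ?_ ?_)
  · rw [norm_mul, norm_neg, Complex.norm_real, Real.norm_of_nonneg (exs_nonneg x)]
    exact mul_le_mul_of_nonneg_right (exs_le x) (norm_nonneg _)
  · split_ifs
    · exact ex_norm_integral_le φ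
    · exact ex_norm_zero_le φ

theorem exFun_memLp (φ : Lp ℂ 1 ex.μ) : MemLp (exFun φ) 1 ex.μ := by
  rw [memLp_one_iff_integrable]
  refine Integrable.mono' (((L1.integrable_coeFn φ).norm.const_mul 2).add (integrable_const ‖φ‖))
    (measurable_of_countable _).aestronglyMeasurable (Eventually.of_forall fun x => ?_)
  exact norm_exFun_le φ x

/-- The bounded operator `U₁` of the example. -/
noncomputable def exA : Lp ℂ 1 ex.μ →L[ℂ] Lp ℂ 1 ex.μ :=
  LinearMap.mkContinuous
    { toFun := fun φ => (exFun_memLp φ).toLp _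
      map_add' := by
        intro φ ψ
        refine Lp.ext (ex_ae.2 fun x => ?_)
        have h1 : ∀ y, (φ + ψ : Lp ℂ 1 ex.μ) y = φ y + ψ y := ex_ae.1 (Lp.coeFn_add φ ψ)
        rw [ex_ae.1 (Lp.coeFn_add _ _) x, Pi.add_apply, ex_toLp_apply, ex_toLp_apply, ex_toLp_apply]
        unfold exFun
        simp_rw [h1]
        rw [integral_add (L1.integrable_coeFn φ) (L1.integrable_coeFn ψ)]
        split_ifs <;> ring
      map_smul' := by
        intro c φ
        refine Lp.ext (ex_ae.2 fun x => ?_)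
        have h1 : ∀ y, (c • φ : Lp ℂ 1 ex.μ) y = c * φ y := ex_ae.1 (Lp.coeFn_smul c φ)
        rw [RingHom.id_apply, ex_ae.1 (Lp.coeFn_smul c _) x, Pi.smul_apply, ex_toLp_apply,
          ex_toLp_apply, smul_eq_mul]
        unfold exFun
        simp_rw [h1]
        rw [integral_const_mul]
        split_ifs <;> ring }
    (2 + ex.μ.real univ) (by
      intro φ
      change ‖(exFun_memLp φ).toLp _‖ ≤ _
      rw [L1.norm_eq_integral_norm]
      simp_rw [ex_toLp_apply]
      have h1 : ∫ x, ‖exFun φ x‖ ∂ex.μ ≤ ∫ x, (2 * ‖φ x‖ + ‖φ‖) ∂ex.μ := by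
        refine integral_mono ?_ ?_ (norm_exFun_le φ)
        · exact (memLp_one_iff_integrable.1 (exFun_memLp φ)).norm
        · exact ((L1.integrable_coeFn φ).norm.const_mul 2).add (integrable_const ‖φ‖)
      refine h1.trans (le_of_eq ?_)
      rw [integral_add ((L1.integrable_coeFn φ).norm.const_mul 2) (integrable_const ‖φ‖),
        integral_const_mul, integral_const, smul_eq_mul, ← L1.norm_eq_integral_norm]
      ring)

theorem exA_apply (φ : Lp ℂ 1 ex.μ) (x : ℕ) : exA φ x = exFun φ x :=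
  ex_toLp_apply (exFun_memLp φ) x

theorem ex_U₁_iff_exA (φ ψ : Lp ℂ 1 ex.μ) : ex.U₁ φ ψ ↔ exA φ = ψ := by
  rw [ex_U₁_iff]
  constructor
  · intro h
    refine Lp.ext (ex_ae.2 fun x => ?_)
    rw [exA_apply, h x]; rfl
  · rintro rfl x
    rw [exA_apply]; rfl

/-- The semigroup generated by a bounded operator. -/
theorem exists_semigroup {X : Type*} [NormedAddCommGroup X] [NormedSpace ℂ X] [CompleteSpace X]
    (A : X →L[ℂ] X) : ∃ T : ℝ → X →L[ℂ] X, IsC0Semigroup T ∧
      HasGenerator T fun x y => A x = y := by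
  let T : ℝ → X →L[ℂ] X := fun t => NormedSpace.exp (t • A)
  have hd : ∀ t : ℝ, HasDerivAt T (NormedSpace.exp (t • A) * A) t := fun t =>
    hasDerivAt_exp_smul_const A t
  have h0 : T 0 = 1 := by simp [T]
  have hev : ∀ x, HasDerivAt (fun t : ℝ => T t x) (A x) 0 := by
    intro x
    have h1 := ((ContinuousLinearMap.apply ℂ X x).restrictScalars ℝ).hasFDerivAt.comp_hasDerivAt
      (0 : ℝ) (hd 0)
    simp only [zero_smul, NormedSpace.exp_zero, one_mul] at h1
    exact h1
  have hlim : ∀ x, Tendsto (fun t : ℝ => ((t : ℂ)⁻¹) • (T t x - x)) (𝓝[>] 0) (𝓝 (A x)) := by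
    intro x
    have h2 := (hev x).tendsto_slope_zero_right
    refine h2.congr fun t => ?_
    rw [zero_add, h0]
    have h6 : ((t : ℝ) : ℂ)⁻¹ = ((t⁻¹ : ℝ) : ℂ) := by push_cast; ring
    rw [h6]
    exact (Complex.coe_smul _ _).symm
  refine ⟨T, ⟨h0, ?_, ?_⟩, ?_⟩
  · intro s t _ _
    change NormedSpace.exp ((s + t) • A) = NormedSpace.exp (s • A) * NormedSpace.exp (t • A)
    let _ : NormedAlgebra ℚ (X →L[ℂ] X) := NormedAlgebra.restrictScalars ℚ ℂ (X →L[ℂ] X)
    rw [add_smul, NormedSpace.exp_add_of_commute]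
    exact ((Commute.refl A).smul_left s).smul_right t
  · intro x
    have h3 := ((hev x).continuousAt.tendsto).mono_left (nhdsWithin_le_nhds (s := Ioi 0))
    rw [h0] at h3
    exact h3
  · intro x y
    constructor
    · rintro rfl; exact hlim x
    · intro h; exact tendsto_nhds_unique (hlim x) h

/-- In the example `U₁` generates a `C₀`-semigroup. -/
theorem ex_generates : ∃ T : ℝ → Lp ℂ 1 ex.μ →L[ℂ] Lp ℂ 1 ex.μ,
    IsC0Semigroup T ∧ HasGenerator T ex.U₁ := by
  obtain ⟨T, hT, hG⟩ := exists_semigroup exA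
  refine ⟨T, hT, fun x y => ?_⟩
  rw [ex_U₁_iff_exA]
  exact hG x y

end Pool.Agent.Lib.MP_ae1cd8_an
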