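import Pool.Agent.Lib.MP_ae1cd8_an.Example

/-! The main theorem for MP_ae1cd8_an. -/

open MeasureTheory Filter Topology Set
open scoped ENNReal NNReal

namespace Pool.Agent.Lib.MP_ae1cd8_an

theorem ex_U₁_ker : ex.U₁ exKer 0 := by
  rw [ex_U₁_iff]
  intro x
  have h0 : (0 : Lp ℂ 1 ex.μ) x = 0 := ex_ae.1 (Lp.coeFn_zero ℂ 1 ex.μ) x
  rw [h0]
  by_cases hx : x = 0
  · subst hx
    have h1 : ∫ y, exKer y ∂ex.μ = 4 / 3 := by
      rw [integral_countable (L1.integrable_coeFn _)]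
      simp_rw [exKer_apply, ex_μ_real]
      have h2 : ∀ k : ℕ, ((1 / 8 : ℝ) ^ k) • (2 : ℂ) ^ k = (1 / 4 : ℂ) ^ k := by
        intro k
        rw [Complex.real_smul]
        push_cast
        rw [← mul_pow]; norm_num
      simp_rw [h2]
      rw [tsum_geometric_of_norm_lt_one (by norm_num)]
      norm_num
    rw [if_pos rfl, h1, exKer_apply]
    simp [exs]
  · rw [if_neg hx, exKer_apply, exKer_apply]
    have h3 : exs x = (1 / 2 : ℝ) ^ x := by simp [exs, hx]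
    rw [h3]
    push_cast
    rw [neg_mul, ← mul_pow]
    norm_num

theorem ex_integral_phi (n : ℕ) : ∫ y, exPhi n y ∂ex.μ = 1 := by
  rw [integral_countable (L1.integrable_coeFn _)]
  simp_rw [exPhi_apply, ex_μ_real]
  have h2 : ∀ k : ℕ, ((1 / 8 : ℝ) ^ k) • (-(4 : ℂ) ^ k + (if k = 0 then 1 else 0) +
      (if k = n then 2 * (8 : ℂ) ^ n else 0)) = -(1 / 2 : ℂ) ^ k + (if k = 0 then 1 else 0) +
      (if k = n then 2 else 0) := by
    intro k
    rw [Complex.real_smul]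
    push_cast
    rw [mul_add, mul_add, mul_neg, ← mul_pow]
    congr 1
    · congr 1
      · norm_num
      · split_ifs with h
        · simp [h]
        · simp
    · split_ifs with h
      · rw [h, mul_comm, mul_assoc, ← mul_pow]; norm_num
      · simp
  simp_rw [h2]
  have hs0 : HasSum (fun k : ℕ => (1 / 2 : ℂ) ^ k) (1 - 1 / 2)⁻¹ :=
    hasSum_geometric_of_norm_lt_one (by norm_num)
  have hs1 : HasSum (fun k : ℕ => -(1 / 2 : ℂ) ^ k) (-(1 - 1 / 2)⁻¹) := hs0.neg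
  have hs2 : HasSum (fun k : ℕ => if k = 0 then (1 : ℂ) else 0) 1 := hasSum_ite_eq 0 1
  have hs3 : HasSum (fun k : ℕ => if k = n then (2 : ℂ) else 0) 2 := hasSum_ite_eq n 2
  rw [((hs1.add hs2).add hs3).tsum_eq]
  norm_num

theorem ex_U₁_phi {n : ℕ} (hn : n ≠ 0) : ex.U₁ (exPhi n) (exKer - exChi n) := by
  rw [ex_U₁_iff]
  intro x
  have h0 : (exKer - exChi n : Lp ℂ 1 ex.μ) x =
      (2 : ℂ) ^ x - if x = n then 2 * (4 : ℂ) ^ n else 0 := by
    have h1 := ex_ae.1 (Lp.coeFn_sub exKer (exChi n)) x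
    rw [h1, Pi.sub_apply, exKer_apply, exChi_apply]
  rw [h0]
  by_cases hx : x = 0
  · subst hx
    rw [if_pos rfl, ex_integral_phi, exPhi_apply, if_neg hn.symm, if_neg hn.symm]
    simp
  · rw [if_neg hx, exPhi_apply, exPhi_apply]
    have h3 : exs x = (1 / 2 : ℝ) ^ x := by simp [exs, hx]
    rw [h3]
    rw [if_neg hx, if_pos rfl, if_neg hn.symm]
    push_cast
    have h4 : (1 / 2 : ℂ) ^ x * 4 ^ x = 2 ^ x := by rw [← mul_pow]; norm_num
    have h5 : (1 / 2 : ℂ) ^ x * 8 ^ x = 4 ^ x := by rw [← mul_pow]; norm_num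
    by_cases hxn : x = n
    · subst hxn
      rw [if_pos rfl, if_pos rfl]
      linear_combination -h4 + 2 * h5
    · rw [if_neg hxn, if_neg hxn]
      linear_combination -h4

theorem ex_norm_chi (n : ℕ) : ‖exChi n‖ = 2 * (1 / 2 : ℝ) ^ n := by
  rw [L1.norm_eq_integral_norm, integral_countable (L1.integrable_coeFn _).norm]
  simp_rw [exChi_apply, ex_μ_real]
  rw [tsum_eq_single n]
  · rw [if_pos rfl, norm_mul, norm_pow]
    simp only [Complex.norm_ofNat, smul_eq_mul]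
    rw [mul_comm, mul_assoc, ← mul_pow]; norm_num
  · intro k hk
    rw [if_neg hk]; simp

theorem ex_norm_ker : 0 < ‖exKer‖ := by
  rw [norm_pos_iff]
  intro h
  have h1 : exKer 0 = (0 : Lp ℂ 1 ex.μ) 0 := by rw [h]
  rw [exKer_apply, ex_ae.1 (Lp.coeFn_zero ℂ 1 ex.μ) 0] at h1
  simp at h1

theorem ex_not_bounded (T : ℝ → Lp ℂ 1 ex.μ →L[ℂ] Lp ℂ 1 ex.μ) (hT : IsC0Semigroup T)
    (hG : HasGenerator T ex.U₁) : ¬ IsUniformlyBounded T := by
  rintro ⟨K, hK⟩
  have h1 : ∀ n : ℕ, ‖exKer‖ ≤ K * (2 * (1 / 2 : ℝ) ^ (n + 1)) := by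
    intro n
    rw [← ex_norm_chi]
    exact norm_kernel_le hT hK hG ex_U₁_ker (ex_U₁_phi n.succ_ne_zero)
  have h2 : Tendsto (fun n : ℕ => K * (2 * (1 / 2 : ℝ) ^ (n + 1))) atTop (𝓝 (K * (2 * 0))) :=
    ((tendsto_pow_atTop_nhds_zero_of_lt_one (by norm_num) (by norm_num)).comp
      (tendsto_add_atTop_nat 1)).const_mul 2 |>.const_mul K
  have h3 := ge_of_tendsto' h2 h1
  rw [mul_zero, mul_zero] at h3
  exact absurd ex_norm_ker (not_lt.2 h3)

end Pool.Agent.Lib.MP_ae1cd8_an
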