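import Pool.Agent.Lib.MP_ae1cd8_an.Defs

/-! Sanity checks for the definitions: `U₁` is a well defined (single valued) operator with domain
exactly `D(M₁)` as soon as condition (A) holds. -/

open MeasureTheory Filter Topology Set
open scoped ENNReal NNReal

namespace Pool.Agent.Lib.MP_ae1cd8_an

variable {Ω : Type*} [MeasurableSpace Ω] (D : JumpData Ω)

namespace JumpData

theorem U₁_unique {φ ψ ψ' : Lp ℂ 1 D.μ} (h : D.U₁ φ ψ) (h' : D.U₁ φ ψ') : ψ = ψ' := by
  refine Lp.ext ?_
  filter_upwards [h.2, h'.2] with x hx hx'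
  rw [hx.2, hx'.2]

theorem σ_measurable : Measurable D.σ := by
  have := D.sigmaFinite
  have h : Measurable (fun q : Ω × Ω => ENNReal.ofReal (D.p q.2 q.1)) :=
    (D.p_measurable.comp measurable_swap).ennreal_ofReal
  exact h.lintegral_prod_right'

theorem lintegral_kernel (f : Ω → ℝ≥0∞) (hf : Measurable f) :
    ∫⁻ x, ∫⁻ y, ENNReal.ofReal (D.p x y) * f y ∂D.ν ∂D.μ = ∫⁻ y, D.σhat y * f y ∂D.μ := by
  have := D.sigmaFinite
  have hp : Measurable (fun q : Ω × Ω => ENNReal.ofReal (D.p q.1 q.2)) :=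
    D.p_measurable.ennreal_ofReal
  have hω : Measurable (fun x => ENNReal.ofReal (D.ω x)) := D.ω_measurable.ennreal_ofReal
  have h1 : Measurable (fun q : Ω × Ω => ENNReal.ofReal (D.p q.1 q.2) * f q.2) :=
    hp.mul (hf.comp measurable_snd)
  have hσ : Measurable D.σhat := hp.lintegral_prod_right'
  unfold JumpData.μ
  rw [lintegral_withDensity_eq_lintegral_mul _ hω h1.lintegral_prod_right',
    lintegral_withDensity_eq_lintegral_mul _ hω (g := fun y => D.σhat y * f y) (hσ.mul hf)]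
  simp only [Pi.mul_apply]
  have h2 : ∀ x, ENNReal.ofReal (D.ω x) * ∫⁻ y, ENNReal.ofReal (D.p x y) * f y ∂D.ν =
      ∫⁻ y, ENNReal.ofReal (D.ω y) * (ENNReal.ofReal (D.p y x) * f y) ∂D.ν := by
    intro x
    rw [← lintegral_const_mul _ (f := fun y => ENNReal.ofReal (D.p x y) * f y)
      ((hp.comp measurable_prodMk_left).mul hf)]
    refine lintegral_congr fun y => ?_
    rw [← mul_assoc, ← mul_assoc, ← ENNReal.ofReal_mul (D.ω_pos x).le,
      ← ENNReal.ofReal_mul (D.ω_pos y).le, D.balance]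
  simp_rw [h2]
  rw [lintegral_lintegral_swap]
  · refine lintegral_congr fun y => ?_
    have h3 : Measurable fun x => ENNReal.ofReal (D.p y x) := hp.comp measurable_prodMk_left
    simp_rw [← mul_assoc]
    rw [lintegral_mul_const _ (h3.const_mul _), lintegral_const_mul _ h3]
    rfl
  · refine Measurable.aemeasurable ?_
    exact (hω.comp measurable_snd).mul
      ((hp.comp measurable_swap).mul (hf.comp measurable_snd))

/-- Under (A), every `φ ∈ D(M₁)` is in the domain of `U₁`. -/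
theorem U₁_exists (hσ : D.SigmaFinitePositive) (hA : D.CondA) {φ : Lp ℂ 1 D.μ}
    (h : Integrable (fun x => ((D.σ x).toReal : ℂ) * φ x) D.μ) : ∃ ψ, D.U₁ φ ψ := by
  have := D.sigmaFinite
  obtain ⟨C, hC⟩ := hA
  have hφm : StronglyMeasurable φ := Lp.stronglyMeasurable φ
  have hφ : Integrable φ D.μ := L1.integrable_coeFn φ
  have hσ' : ∀ᵐ x ∂D.μ, D.σ x < ∞ := by
    have h1 : D.μ ≪ D.ν := withDensity_absolutelyContinuous _ _
    filter_upwards [h1 hσ] with x hx using hx.2
  have hp : Measurable (fun q : Ω × Ω => ENNReal.ofReal (D.p q.1 q.2)) :=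
    D.p_measurable.ennreal_ofReal
  have hfin : ∫⁻ x, ∫⁻ y, ENNReal.ofReal (D.p x y) * ‖φ y‖ₑ ∂D.ν ∂D.μ < ∞ := by
    rw [D.lintegral_kernel _ hφm.measurable.enorm]
    have h1 : ∀ᵐ y ∂D.μ, D.σhat y * ‖φ y‖ₑ ≤
        C * (‖φ y‖ₑ + ‖((D.σ y).toReal : ℂ) * φ y‖ₑ) := by
      filter_upwards [hσ'] with y hy
      have h2 : ‖((D.σ y).toReal : ℂ) * φ y‖ₑ = D.σ y * ‖φ y‖ₑ := by
        rw [enorm_mul]
        congr 1
        rw [← ofReal_norm, Complex.norm_real, Real.norm_of_nonneg ENNReal.toReal_nonneg,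
          ENNReal.ofReal_toReal hy.ne]
      rw [h2]
      calc D.σhat y * ‖φ y‖ₑ ≤ (C * (1 + D.σ y)) * ‖φ y‖ₑ := by gcongr; exact hC y
        _ = _ := by ring
    refine (lintegral_mono_ae h1).trans_lt ?_
    have h3 : AEMeasurable (fun y => ‖φ y‖ₑ) D.μ := hφ.aestronglyMeasurable.enorm
    have h4 : AEMeasurable (fun y => ‖((D.σ y).toReal : ℂ) * φ y‖ₑ) D.μ :=
      h.aestronglyMeasurable.enorm
    rw [lintegral_const_mul' _ _ ENNReal.coe_ne_top, lintegral_add_left' h3]
    exact ENNReal.mul_lt_top ENNReal.coe_lt_top (ENNReal.add_lt_top.2 ⟨hφ.2, h.2⟩)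
  have hmeas : Measurable fun x => ∫⁻ y, ENNReal.ofReal (D.p x y) * ‖φ y‖ₑ ∂D.ν :=
    (hp.mul (hφm.measurable.enorm.comp measurable_snd)).lintegral_prod_right'
  have hae : ∀ᵐ x ∂D.μ, Integrable (fun y => (D.p x y : ℂ) * φ y) D.ν := by
    filter_upwards [ae_lt_top hmeas hfin.ne] with x hx
    refine ⟨?_, ?_⟩
    · refine StronglyMeasurable.aestronglyMeasurable ?_
      refine StronglyMeasurable.mul ?_ hφm
      exact (Complex.measurable_ofReal.comp
        (D.p_measurable.comp measurable_prodMk_left)).stronglyMeasurable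
    · rw [hasFiniteIntegral_iff_enorm]
      refine lt_of_eq_of_lt (lintegral_congr fun y => ?_) hx
      rw [enorm_mul]
      congr 1
      rw [← ofReal_norm, Complex.norm_real, Real.norm_of_nonneg (D.p_nonneg x y)]
  have hint : Integrable (fun x => ∫ y, (D.p x y : ℂ) * φ y ∂D.ν) D.μ := by
    refine ⟨?_, ?_⟩
    · refine StronglyMeasurable.aestronglyMeasurable ?_
      have h1 : StronglyMeasurable fun q : Ω × Ω => (D.p q.1 q.2 : ℂ) * φ q.2 :=
        (Complex.measurable_ofReal.comp D.p_measurable).stronglyMeasurable.mul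
          (hφm.comp_measurable measurable_snd)
      exact h1.integral_prod_right'
    · rw [hasFiniteIntegral_iff_enorm]
      refine (lintegral_mono fun x => ?_).trans_lt hfin
      refine (enorm_integral_le_lintegral_enorm _).trans (le_of_eq ?_)
      refine lintegral_congr fun y => ?_
      rw [enorm_mul]
      congr 1
      rw [← ofReal_norm, Complex.norm_real, Real.norm_of_nonneg (D.p_nonneg x y)]
  have htot : Integrable (fun x => -((D.σ x).toReal : ℂ) * φ x +
      ∫ y, (D.p x y : ℂ) * φ y ∂D.ν) D.μ := by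
    refine Integrable.add ?_ hint
    have h5 := h.neg
    refine h5.congr (Eventually.of_forall fun x => ?_)
    simp only [Pi.neg_apply, neg_mul]
  refine ⟨(memLp_one_iff_integrable.2 htot).toLp _, h, ?_⟩
  filter_upwards [hae, (memLp_one_iff_integrable.2 htot).coeFn_toLp] with x hx hx'
  exact ⟨hx, hx'⟩

/-- Under (A), `U₁` is a single valued operator with domain exactly `D(M₁)`. -/
theorem U₁_domain (hσ : D.SigmaFinitePositive) (hA : D.CondA) (φ : Lp ℂ 1 D.μ) :
    Integrable (fun x => ((D.σ x).toReal : ℂ) * φ x) D.μ ↔ ∃! ψ, D.U₁ φ ψ := by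
  constructor
  · intro h
    obtain ⟨ψ, hψ⟩ := D.U₁_exists hσ hA h
    exact ⟨ψ, hψ, fun ψ' h' => D.U₁_unique h' hψ⟩
  · rintro ⟨ψ, hψ, -⟩
    exact hψ.1

end JumpData

end Pool.Agent.Lib.MP_ae1cd8_an
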